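import Pool.Agent.W68.Qn.Defs

/-!
# Queens domination: the classification when `2e` is not in `X`
-/

set_option autoImplicit false

namespace Pool.Agent.W113.Qn.T4

open Pool.Agent.W68.Qn

theorem mc {A : Finset ℤ} {x y : ℤ} (h : x ∈ A) (e : x = y) : y ∈ A := e ▸ h

structure St (h : ℤ) (A : Finset ℤ) (e b : ℤ) : Prop where
  sh : Shape h A
  h16 : 16 ≤ h
  e0 : 0 < e
  Xe : XX h A e
  emin : ∀ z : ℤ, 0 < z → z < e → ¬ XX h A z
  n2e : ¬ XX h A (2 * e)
  eb : e < b
  Xb : XX h A b
  bmin : ∀ z : ℤ, e < z → z < b → ¬ XX h A z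
  bh : b < h

variable {h : ℤ} {A : Finset ℤ} {e b : ℤ}

theorem bnd (S : Shape h A) {z : ℤ} (hz : XX h A z) : 0 ≤ z ∧ z ≤ 2 * h := by
  rcases hz with hz | hz
  · have := S.rng z hz; omega
  · have := S.rng _ hz; omega

theorem xsym (z : ℤ) (hz : XX h A z) : XX h A (2 * h - z) := by
  rcases hz with hz | hz
  · right; exact mc hz (by ring)
  · left; exact hz

theorem pair (S : Shape h A) {x y : ℤ} (hx : XX h A x) (hy : XX h A y) (hxy : x ≤ y)
    (hs : x + y ≤ 2 * h) : y - x ∈ A ∨ 2 * h - (x + y) ∈ A := by
  rcases hx with hx | hx <;> rcases hy with hy | hy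
  · rcases S.cov x hx y hy with k | k
    · left; exact mc k (by rw [abs_of_nonpos (by omega)]; ring)
    · right; exact mc k (by rw [abs_of_nonneg (by omega)]; ring)
  · rcases S.cov x hx _ hy with k | k
    · right; exact mc k (by rw [abs_of_nonpos (by omega)]; ring)
    · left; exact mc k (by rw [abs_of_nonneg (by omega)]; ring)
  · rcases S.cov _ hx y hy with k | k
    · right; exact mc k (by rw [abs_of_nonneg (by omega)]; ring)
    · left; exact mc k (by rw [abs_of_nonpos (by omega)]; ring)
  · rcases S.cov _ hx _ hy with k | k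
    · left; exact mc k (by rw [abs_of_nonneg (by omega)]; ring)
    · right; exact mc k (by rw [abs_of_nonpos (by omega)]; ring)

theorem BB (S : St h A e b) : ∀ n : ℕ, ∀ z : ℤ, 2 * h - z ≤ n → 0 ≤ z → 2 * h - z ∈ A →
    2 * h - (z + e) ∈ A → z + e < 2 * h → False := by
  intro n
  induction n with
  | zero =>
    intro z h1 h2 h3 h4 h5
    have := S.e0
    push_cast at h1
    omega
  | succ n ih =>
    intro z h1 h2 h3 h4 h5
    have he0 := S.e0
    push_cast at h1
    by_cases h6 : z + 2 * e ≤ 2 * h
    · by_cases h7 : z + 2 * e = 2 * h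
      · refine S.n2e (Or.inl ?_)
        exact mc h3 (by omega)
      · rcases pair S.sh S.Xe (Or.inr h4) (by omega) (by omega) with k | k
        · have : z ∈ A := mc k (by ring)
          exact S.sh.dis z this h3
        · exact ih (z + e) (by omega) (by omega) h4 (mc k (by ring)) (by omega)
    · exact S.emin (2 * h - (z + e)) (by omega) (by omega) (Or.inl h4)

theorem bb (S : St h A e b) {z : ℤ} (h2 : 0 ≤ z) (h3 : 2 * h - z ∈ A)
    (h4 : 2 * h - (z + e) ∈ A) (h5 : z + e < 2 * h) : False :=
  BB S (2 * h - z).toNat z (by omega) h2 h3 h4 h5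

theorem rr (S : St h A e b) {z : ℤ} (h3 : z ∈ A) (h4 : z - e ∈ A) (h5 : e < z) : False := by
  have h6 := S.sh.rng z h3
  refine bb S (z := 2 * h - z) (by omega) (mc h3 (by ring)) (mc h4 (by ring)) (by omega)

theorem redB (S : St h A e b) {p : ℤ} (hp : p ∈ A) (h1 : e < p) (h2 : p + e ≤ 2 * h) :
    2 * h - (p + e) ∈ A := by
  rcases pair S.sh S.Xe (Or.inl hp) (by omega) (by omega) with k | k
  · exact (rr S hp k h1).elim
  · exact mc k (by ring)

theorem blueR (S : St h A e b) {p : ℤ} (hp : 2 * h - p ∈ A) (h1 : e ≤ p) (h2 : p + e < 2 * h) :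
    p - e ∈ A := by
  have := S.e0
  rcases pair S.sh S.Xe (Or.inr hp) (by omega) (by omega) with k | k
  · exact k
  · exact (bb S (z := p) (by omega) hp (mc k (by ring)) h2).elim

theorem smallX (S : St h A e b) {z : ℤ} (hz : XX h A z) (h1 : z < b) : z = 0 ∨ z = e := by
  have h2 := bnd S.sh hz
  by_contra hcon
  push Not at hcon
  rcases lt_trichotomy z e with h3 | h3 | h3
  · exact S.emin z (by omega) h3 hz
  · exact hcon.2 h3
  · exact S.bmin z h3 h1 hz

theorem bRB (S : St h A e b) : b ∈ A ∧ 2 * h - (b + e) ∈ A := by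
  have he0 := S.e0
  have heb := S.eb
  have hbh := S.bh
  have h1 : 2 * h - (b + e) ∈ A := by
    rcases pair S.sh S.Xe S.Xb (by omega) (by omega) with k | k
    · exfalso
      rcases smallX S (Or.inl k) (by omega) with h2 | h2
      · omega
      · exact S.n2e (by rw [show 2 * e = b by omega]; exact S.Xb)
    · exact mc k (by ring)
  refine ⟨?_, h1⟩
  rcases S.Xb with h2 | h2
  · exact h2
  · exact (bb S (z := b) (by omega) h2 h1 (by omega)).elim

/-- red elements between `b` and `2h-b` -/
def T (h : ℤ) (A : Finset ℤ) (b p : ℤ) : Prop := p ∈ A ∧ b ≤ p ∧ p ≤ 2 * h - b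

theorem Tsym (S : St h A e b) {p : ℤ} (hp : T h A b p) : T h A b (2 * h - e - p) := by
  obtain ⟨h1, h2, h3⟩ := hp
  have he0 := S.e0
  have heb := S.eb
  have h4 := redB S h1 (by omega) (by omega)
  have h5 : 2 * h - e - p ∈ A := mc h4 (by ring)
  refine ⟨h5, ?_, by omega⟩
  by_contra hcon
  rcases smallX S (Or.inl h5) (by omega) with h6 | h6
  · omega
  · exact S.n2e (Or.inr (mc h1 (by omega)))

theorem Tle (S : St h A e b) {p : ℤ} (hp : T h A b p) : p + b + e ≤ 2 * h := by
  have := (Tsym S hp).2.1
  omega

theorem TB (S : St h A e b) {p : ℤ} (hp : T h A b p) : 2 * h - (p + e) ∈ A :=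
  mc (Tsym S hp).1 (by ring)

theorem classR (S : St h A e b) {z : ℤ} (hz : z ∈ A) :
    z = 0 ∨ z = e ∨ T h A b z ∨ z = 2 * h - e := by
  by_cases h1 : z < b
  · rcases smallX S (Or.inl hz) h1 with h2 | h2
    · exact Or.inl h2
    · exact Or.inr (Or.inl h2)
  · by_cases h2 : z ≤ 2 * h - b
    · exact Or.inr (Or.inr (Or.inl ⟨hz, by omega, h2⟩))
    · have h3 := S.sh.rng z hz
      rcases smallX S (z := 2 * h - z) (Or.inr (mc hz (by ring))) (by omega) with h4 | h4
      · omega
      · right; right; right; omega

theorem dich (S : St h A e b) {p q : ℤ} (hp : T h A b p) (hq : T h A b q) (hpq : p ≤ q)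
    (hs : p + q + 2 * e < 2 * h) :
    q - p ∈ A ∨ (q - p + e ∈ A ∧ |q - p - e| ∈ A ∧ 2 * h - (p + q) ∈ A) := by
  by_cases h1 : q - p ∈ A
  · exact Or.inl h1
  · right
    have he0 := S.e0
    have heb := S.eb
    have hb1 := hp.2.1
    have h2 : 2 * h - (p + q) ∈ A := by
      rcases pair S.sh (Or.inl hp.1) (Or.inl hq.1) hpq (by omega) with k | k
      · exact (h1 k).elim
      · exact k
    have hpb := TB S hp
    have hqb := TB S hq
    have h3 : 2 * h - (p + q + 2 * e) ∈ A := by
      rcases pair S.sh (Or.inr hpb) (Or.inr hqb) (by omega) (by omega) with k | k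
      · exact (h1 (mc k (by ring))).elim
      · exact mc k (by ring)
    have h4 : 2 * h - (p + q + e) ∉ A := by
      intro k
      exact bb S (z := p + q + e) (by omega) k (mc h3 (by ring)) (by omega)
    refine ⟨?_, ?_, h2⟩
    · rcases pair S.sh (Or.inl hp.1) (Or.inr hqb) (by omega) (by omega) with k | k
      · exact mc k (by ring)
      · exact (h4 (mc k (by ring))).elim
    · by_cases h5 : p + e ≤ q
      · rcases pair S.sh (Or.inr hpb) (Or.inl hq.1) h5 (by omega) with k | k
        · exact mc k (by rw [abs_of_nonneg (by omega)]; ring)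
        · exact (h4 (mc k (by ring))).elim
      · rcases pair S.sh (Or.inl hq.1) (Or.inr hpb) (by omega) (by omega) with k | k
        · exact mc k (by rw [abs_of_nonpos (by omega)]; ring)
        · exact (h4 (mc k (by ring))).elim

theorem sparse (S : St h A e b) {p q : ℤ} (hp : T h A b p) (hq : T h A b q) (hpq : p < q)
    (hs : p + q + e < 2 * h) (hd : q - p < e) : False := by
  have he0 := S.e0
  have heb := S.eb
  have hb1 := hp.2.1
  have h1 : q - p ∉ A := fun k => S.emin (q - p) (by omega) hd (Or.inl k)
  have h2 : 2 * h - (p + q) ∈ A := by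
    rcases pair S.sh (Or.inl hp.1) (Or.inl hq.1) hpq.le (by omega) with k | k
    · exact (h1 k).elim
    · exact k
  have hpb := TB S hp
  rcases pair S.sh (Or.inl hq.1) (Or.inr hpb) (by omega) (by omega) with k | k
  · exact S.emin (p + e - q) (by omega) (by omega) (Or.inl k)
  · exact bb S (z := p + q) (by omega) h2 (mc k (by ring)) (by omega)

theorem claimb (S : St h A e b) (h3e : b ≠ 3 * e ∨ 5 * e ∉ A) : ∀ n : ℕ, ∀ q : ℤ, q ≤ n →
    T h A b q → q + b + 2 * e < 2 * h → b ∣ q := by
  intro n
  induction n with
  | zero =>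
    intro q h1 h2 _
    have := h2.2.1
    have he0 := S.e0
    have heb := S.eb
    push_cast at h1
    omega
  | succ n ih =>
    intro q h1 h2 h3
    push_cast at h1
    have hbq := h2.2.1
    have he0 := S.e0
    have heb := S.eb
    have hbh := S.bh
    obtain ⟨hbR, hbB⟩ := bRB S
    have hTb : T h A b b := ⟨hbR, le_rfl, by omega⟩
    rcases dich S hTb h2 hbq (by omega) with k | ⟨k1, k2, k3⟩
    · rcases classR S k with c | c | c | c
      · exact ⟨1, by omega⟩
      · exfalso
        refine S.sh.dis q h2.1 (mc hbB ?_)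
        omega
      · obtain ⟨t, ht⟩ := ih (q - b) (by omega) c (by omega)
        exact ⟨t + 1, by rw [mul_add, ← ht]; ring⟩
      · omega
    · by_cases hr : q = b
      · exact ⟨1, by omega⟩
      rcases classR S k2 with c | c | c | c
      · exfalso
        have : q - b - e = 0 := abs_eq_zero.1 c
        exact S.n2e (Or.inl (mc k1 (by omega)))
      · rcases abs_eq (by omega : 0 ≤ e) |>.1 c with c' | c'
        · -- q = b + 2 e
          exfalso
          have hq : q = b + 2 * e := by omega
          have h3eA : 3 * e ∈ A := mc k1 (by omega)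
          rcases classR S h3eA with d | d | d | d
          · omega
          · omega
          · obtain ⟨t, ht⟩ := ih (3 * e) (by omega) d (by omega)
            have ht1 : t < 3 := by
              by_contra hcon
              have : b * 3 ≤ b * t := by
                apply mul_le_mul_of_nonneg_left <;> omega
              omega
            have ht0 : 0 < t := by
              by_contra hcon
              have : b * t ≤ 0 := by
                apply mul_nonpos_of_nonneg_of_nonpos <;> omega
              omega
            have : t = 1 ∨ t = 2 := by omega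
            rcases this with rfl | rfl
            · rcases h3e with h3e | h3e
              · omega
              · exact h3e (mc h2.1 (by omega))
            · have h2bA : 2 * b ∈ A := mc h3eA (by omega)
              have m1 := redB S h2bA (by omega) (by omega)
              have m2 := blueR S (p := 2 * b + 2 * e) (mc k3 (by omega)) (by omega) (by omega)
              exact S.sh.dis (2 * b + e) (mc m2 (by ring)) m1
          · omega
        · omega
      · have hc1 := c.2.1
        have hpos : 0 ≤ q - b - e := by
          by_contra hcon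
          rw [abs_of_neg (by omega)] at hc1
          omega
        rw [abs_of_nonneg hpos] at c
        obtain ⟨t, ht⟩ := ih (q - b - e) (by omega) c (by omega)
        rcases classR S k1 with d | d | d | d
        · omega
        · omega
        · obtain ⟨t', ht'⟩ := ih (q - b + e) (by omega) d (by omega)
          exfalso
          have h2e : 2 * e = b * (t' - t) := by
            rw [mul_sub, ← ht, ← ht']; ring
          have hu1 : t' - t < 2 := by
            by_contra hcon
            have : b * 2 ≤ b * (t' - t) := by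
              apply mul_le_mul_of_nonneg_left <;> omega
            omega
          have hu0 : 0 < t' - t := by
            by_contra hcon
            have : b * (t' - t) ≤ 0 := by
              apply mul_nonpos_of_nonneg_of_nonpos <;> omega
            omega
          have hu : t' - t = 1 := by omega
          rw [hu] at h2e
          exact S.n2e (by rw [h2e, mul_one]; exact S.Xb)
        · omega
      · exfalso
        rcases abs_eq (by omega : 0 ≤ 2 * h - e) |>.1 c with c' | c' <;> omega

theorem claime (S : St h A e b) (hb3 : b = 3 * e) : ∀ n : ℕ, ∀ q : ℤ, q ≤ n →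
    T h A b q → q + b + 2 * e < 2 * h → e ∣ q := by
  intro n
  induction n with
  | zero =>
    intro q h1 h2 _
    have := h2.2.1
    have he0 := S.e0
    have heb := S.eb
    push_cast at h1
    omega
  | succ n ih =>
    intro q h1 h2 h3
    push_cast at h1
    have hbq := h2.2.1
    have he0 := S.e0
    have heb := S.eb
    have hbh := S.bh
    obtain ⟨hbR, hbB⟩ := bRB S
    have hTb : T h A b b := ⟨hbR, le_rfl, by omega⟩
    rcases dich S hTb h2 hbq (by omega) with k | ⟨k1, k2, k3⟩
    · rcases classR S k with c | c | c | c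
      · exact ⟨3, by omega⟩
      · exact ⟨4, by omega⟩
      · obtain ⟨t, ht⟩ := ih (q - b) (by omega) c (by omega)
        exact ⟨t + 3, by rw [mul_add, ← ht]; omega⟩
      · omega
    · rcases classR S k2 with c | c | c | c
      · have : q - b - e = 0 := abs_eq_zero.1 c
        exact ⟨4, by omega⟩
      · rcases abs_eq (by omega : 0 ≤ e) |>.1 c with c' | c'
        · exact ⟨5, by omega⟩
        · exact ⟨3, by omega⟩
      · have hc1 := c.2.1
        have hpos : 0 ≤ q - b - e := by
          by_contra hcon
          rw [abs_of_neg (by omega)] at hc1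
          omega
        rw [abs_of_nonneg hpos] at c
        obtain ⟨t, ht⟩ := ih (q - b - e) (by omega) c (by omega)
        exact ⟨t + 4, by rw [mul_add, ← ht]; omega⟩
      · exfalso
        rcases abs_eq (by omega : 0 ≤ 2 * h - e) |>.1 c with c' | c' <;> omega

theorem cardT (S : St h A e b) :
    A.card ≤ (A.filter (fun p => b ≤ p ∧ p ≤ 2 * h - b)).card + 2 := by
  classical
  obtain ⟨c, hc⟩ : ∃ c : ℤ, ∀ z ∈ A, z = e ∨ z = 2 * h - e → z = c := by
    rcases S.Xe with hx | hx
    · refine ⟨e, fun z hz hz' => ?_⟩
      rcases hz' with hz' | hz'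
      · exact hz'
      · exact (S.sh.dis e hx (mc hz hz')).elim
    · refine ⟨2 * h - e, fun z hz hz' => ?_⟩
      rcases hz' with hz' | hz'
      · exact (S.sh.dis e (mc hz hz') hx).elim
      · exact hz'
  have hsub : A ⊆ insert 0 (insert c (A.filter (fun p => b ≤ p ∧ p ≤ 2 * h - b))) := by
    intro z hz
    rw [Finset.mem_insert, Finset.mem_insert, Finset.mem_filter]
    rcases classR S hz with d | d | d | d
    · exact Or.inl d
    · exact Or.inr (Or.inl (hc z hz (Or.inl d)))
    · exact Or.inr (Or.inr ⟨hz, d.2.1, d.2.2⟩)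
    · exact Or.inr (Or.inl (hc z hz (Or.inr d)))
  have h1 := Finset.card_le_card hsub
  have h2 := Finset.card_insert_le (0 : ℤ)
    (insert c (A.filter (fun p => b ≤ p ∧ p ≤ 2 * h - b)))
  have h3 := Finset.card_insert_le c (A.filter (fun p => b ≤ p ∧ p ≤ 2 * h - b))
  omega

theorem caseI (S : St h A e b) (hI : 2 * h ≤ 2 * b + 3 * e) : False := by
  classical
  have hT := cardT S
  have hbig := S.sh.big
  have h16 := S.h16
  have he0 := S.e0
  have heb := S.eb
  set F := A.filter (fun p => b ≤ p ∧ p ≤ 2 * h - b) with hF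
  have hmem : ∀ p ∈ F, T h A b p := by
    intro p hp
    rw [hF, Finset.mem_filter] at hp
    exact ⟨hp.1, hp.2.1, hp.2.2⟩
  have hlow : (F.filter (fun p => 2 * p + e < 2 * h)).card ≤ 1 := by
    rw [Finset.card_le_one]
    intro x hx y hy
    rw [Finset.mem_filter] at hx hy
    have tx := hmem x hx.1
    have ty := hmem y hy.1
    have b1 := tx.2.1
    have b2 := ty.2.1
    have l1 := hx.2
    have l2 := hy.2
    by_contra hne
    rcases lt_or_gt_of_ne hne with hlt | hlt
    · exact sparse S tx ty hlt (by omega) (by omega)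
    · exact sparse S ty tx hlt (by omega) (by omega)
  have hhigh : (F.filter (fun p => 2 * h < 2 * p + e)).card ≤ 1 := by
    rw [Finset.card_le_one]
    intro x hx y hy
    rw [Finset.mem_filter] at hx hy
    have tx := Tsym S (hmem x hx.1)
    have ty := Tsym S (hmem y hy.1)
    have b1 := tx.2.1
    have b2 := ty.2.1
    have l1 := hx.2
    have l2 := hy.2
    by_contra hne
    rcases lt_or_gt_of_ne hne with hlt | hlt
    · exact sparse S ty tx (by omega) (by omega) (by omega)
    · exact sparse S tx ty (by omega) (by omega) (by omega)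
  have hmid : (F.filter (fun p => 2 * p + e = 2 * h)).card ≤ 1 := by
    rw [Finset.card_le_one]
    intro x hx y hy
    rw [Finset.mem_filter] at hx hy
    omega
  have hsub : F ⊆ (F.filter (fun p => 2 * p + e < 2 * h)) ∪
      ((F.filter (fun p => 2 * h < 2 * p + e)) ∪ (F.filter (fun p => 2 * p + e = 2 * h))) := by
    intro p hp
    rcases lt_trichotomy (2 * p + e) (2 * h) with k | k | k
    · exact Finset.mem_union.2 (Or.inl (Finset.mem_filter.2 ⟨hp, k⟩))
    · exact Finset.mem_union.2 (Or.inr (Finset.mem_union.2
        (Or.inr (Finset.mem_filter.2 ⟨hp, k⟩))))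
    · exact Finset.mem_union.2 (Or.inr (Finset.mem_union.2
        (Or.inl (Finset.mem_filter.2 ⟨hp, k⟩))))
  have c1 := Finset.card_le_card hsub
  have c2 := Finset.card_union_le (F.filter (fun p => 2 * p + e < 2 * h))
    ((F.filter (fun p => 2 * h < 2 * p + e)) ∪ (F.filter (fun p => 2 * p + e = 2 * h)))
  have c3 := Finset.card_union_le (F.filter (fun p => 2 * h < 2 * p + e))
    (F.filter (fun p => 2 * p + e = 2 * h))
  omega

/-- common part: all elements of `T` are divisible by `μ`, and `μ` divides `2h-e` -/
theorem common (S : St h A e b) (hI : 2 * b + 3 * e < 2 * h) (μ : ℤ)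
    (hcl : ∀ q : ℤ, T h A b q → q + b + 2 * e < 2 * h → μ ∣ q)
    (hsm : ∀ p : ℤ, T h A b p → p ≤ b + e → μ ∣ p → p = b) :
    μ ∣ 2 * h - e ∧ ∀ p : ℤ, T h A b p → μ ∣ p := by
  classical
  have hT := cardT S
  have hbig := S.sh.big
  have h16 := S.h16
  have he0 := S.e0
  have heb := S.eb
  set F := A.filter (fun p => b ≤ p ∧ p ≤ 2 * h - b) with hF
  obtain ⟨p, hpF, hp1⟩ : ∃ p ∈ F, p ∉ ({b, 2 * h - e - b} : Finset ℤ) := by
    by_contra hcon
    push Not at hcon
    have h1 : F ⊆ ({b, 2 * h - e - b} : Finset ℤ) := hcon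
    have h2 := Finset.card_le_card h1
    have h3 : ({b, 2 * h - e - b} : Finset ℤ).card ≤ 2 := Finset.card_le_two
    omega
  rw [hF, Finset.mem_filter] at hpF
  rw [Finset.mem_insert, Finset.mem_singleton] at hp1
  push Not at hp1
  have tp : T h A b p := ⟨hpF.1, hpF.2.1, hpF.2.2⟩
  have tp' := Tsym S tp
  have g1 : b + e < p := by
    by_contra hcon
    exact hp1.1 (hsm p tp (by omega) (hcl p tp (by omega)))
  have g2 : b + e < 2 * h - e - p := by
    by_contra hcon
    have := hsm _ tp' (by omega) (hcl _ tp' (by omega))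
    omega
  have d1 := hcl p tp (by omega)
  have d2 := hcl _ tp' (by omega)
  have d3 : μ ∣ 2 * h - e := by
    have := dvd_add d1 d2
    rwa [show p + (2 * h - e - p) = 2 * h - e by ring] at this
  refine ⟨d3, fun x tx => ?_⟩
  by_cases hx : x + b + 2 * e < 2 * h
  · exact hcl x tx hx
  · have d4 := hcl _ (Tsym S tx) (by omega)
    have := dvd_sub d3 d4
    rwa [show 2 * h - e - (2 * h - e - x) = x by ring] at this

theorem caseA (S : St h A e b) (hI : 2 * b + 3 * e < 2 * h) (h3e : b ≠ 3 * e ∨ 5 * e ∉ A) :
    Thirds h A := by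
  classical
  have hT := cardT S
  have hbig := S.sh.big
  have h16 := S.h16
  have he0 := S.e0
  have heb := S.eb
  obtain ⟨hd, hall⟩ := common S hI b
    (fun q hq1 hq2 => claimb S h3e q.toNat q (by omega) hq1 hq2) (by
      intro p hp hpl hdv
      obtain ⟨t, ht⟩ := hdv
      have hbp := hp.2.1
      have ht1 : t < 2 := by
        by_contra hcon
        have : b * 2 ≤ b * t := by
          apply mul_le_mul_of_nonneg_left <;> omega
        omega
      have ht0 : 0 < t := by
        by_contra hcon
        have : b * t ≤ 0 := by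
          apply mul_nonpos_of_nonneg_of_nonpos <;> omega
        omega
      have : t = 1 := by omega
      rw [this] at ht
      omega)
  obtain ⟨N, hN⟩ := hd
  have hNpos : 0 < N := by
    by_contra hcon
    have : b * N ≤ 0 := by
      apply mul_nonpos_of_nonneg_of_nonpos <;> omega
    have := S.bh
    omega
  have hsub : A.filter (fun p => b ≤ p ∧ p ≤ 2 * h - b) ⊆
      (Finset.Icc (1 : ℤ) (N - 1)).image (fun k => b * k) := by
    intro p hp
    rw [Finset.mem_filter] at hp
    have tp : T h A b p := ⟨hp.1, hp.2.1, hp.2.2⟩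
    obtain ⟨t, ht⟩ := hall p tp
    have hle := Tle S tp
    rw [Finset.mem_image]
    refine ⟨t, ?_, ht.symm⟩
    rw [Finset.mem_Icc]
    constructor
    · by_contra hcon
      have : b * t ≤ 0 := by
        apply mul_nonpos_of_nonneg_of_nonpos <;> omega
      omega
    · by_contra hcon
      have : b * N ≤ b * t := by
        apply mul_le_mul_of_nonneg_left <;> omega
      omega
  have hc1 := Finset.card_le_card hsub
  have hc2 : ((Finset.Icc (1 : ℤ) (N - 1)).image (fun k => b * k)).card ≤
      (Finset.Icc (1 : ℤ) (N - 1)).card := Finset.card_image_le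
  rw [Int.card_Icc] at hc2
  have hc3 : (A.card : ℤ) ≤ N + 1 := by omega
  have hh : h ≤ 2 * N + 1 := by omega
  have hb5 : b < 5 := by
    by_contra hcon
    have : 5 * N ≤ b * N := by
      apply mul_le_mul_of_nonneg_right <;> omega
    omega
  have hb2 : b ≠ 2 * e := by
    intro hb
    exact S.n2e (by rw [← hb]; exact S.Xb)
  have hb3 : b = 3 := by
    have : b = 2 ∨ b = 3 ∨ b = 4 := by omega
    rcases this with rfl | rfl | rfl
    · omega
    · rfl
    · omega
  subst hb3
  have hnd : ¬ (3 : ℤ) ∣ h := by
    rintro ⟨k, hk⟩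
    omega
  refine ⟨hnd, fun a ha => ?_⟩
  rcases classR S ha with c | c | c | c
  · left; rw [c]; exact dvd_zero _
  · right; rw [c]; exact ⟨N, hN⟩
  · left; exact hall a c
  · left; rw [c]; exact ⟨N, hN⟩

theorem caseB (S : St h A e b) (hI : 2 * b + 3 * e < 2 * h) (hb3 : b = 3 * e) (he2 : 2 ≤ e) :
    False := by
  classical
  have hT := cardT S
  have hbig := S.sh.big
  have h16 := S.h16
  have he0 := S.e0
  have heb := S.eb
  obtain ⟨hbR, hbB⟩ := bRB S
  obtain ⟨hd, hall⟩ := common S hI e
    (fun q hq1 hq2 => claime S hb3 q.toNat q (by omega) hq1 hq2) (by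
      intro p hp hpl hdv
      obtain ⟨t, ht⟩ := hdv
      have hbp := hp.2.1
      have ht1 : t < 5 := by
        by_contra hcon
        have : e * 5 ≤ e * t := by
          apply mul_le_mul_of_nonneg_left <;> omega
        omega
      have ht0 : 2 < t := by
        by_contra hcon
        have : e * t ≤ e * 2 := by
          apply mul_le_mul_of_nonneg_left <;> omega
        omega
      have : t = 3 ∨ t = 4 := by omega
      rcases this with rfl | rfl
      · omega
      · exfalso
        exact S.sh.dis p hp.1 (mc hbB (by omega)))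
  obtain ⟨N, hN'⟩ := hd
  have hN : 2 * h = e * (N + 1) := by rw [mul_add, ← hN']; ring
  set F := A.filter (fun p => b ≤ p ∧ p ≤ 2 * h - b) with hF
  have hmem : ∀ p ∈ F, T h A b p := by
    intro p hp
    rw [hF, Finset.mem_filter] at hp
    exact ⟨hp.1, hp.2.1, hp.2.2⟩
  have hsub : F ∪ F.image (fun p => p + e) ⊆
      (Finset.Icc (3 : ℤ) (N + 1 - 3)).image (fun k => e * k) := by
    intro p hp
    rw [Finset.mem_union] at hp
    have key : e ∣ p ∧ b ≤ p ∧ p + b ≤ 2 * h := by
      rcases hp with hp | hp
      · have tp := hmem p hp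
        exact ⟨hall p tp, tp.2.1, by have := Tle S tp; omega⟩
      · rw [Finset.mem_image] at hp
        obtain ⟨x, hx, rfl⟩ := hp
        have tx := hmem x hx
        exact ⟨dvd_add (hall x tx) (dvd_refl e), by have := tx.2.1; omega,
          by have := Tle S tx; omega⟩
    obtain ⟨⟨t, ht⟩, k1, k2⟩ := key
    rw [Finset.mem_image]
    refine ⟨t, ?_, ht.symm⟩
    rw [Finset.mem_Icc]
    constructor
    · by_contra hcon
      have : e * t ≤ e * 2 := by
        apply mul_le_mul_of_nonneg_left <;> omega
      omega
    · by_contra hcon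
      have : e * (N + 1 - 2) ≤ e * t := by
        apply mul_le_mul_of_nonneg_left <;> omega
      have h5 : e * (N + 1 - 2) = e * (N + 1) - 2 * e := by ring
      omega
  have hdis : Disjoint F (F.image (fun p => p + e)) := by
    rw [Finset.disjoint_left]
    intro x hx hx'
    rw [Finset.mem_image] at hx'
    obtain ⟨y, hy, rfl⟩ := hx'
    have t1 := hmem _ hx
    have t2 := hmem y hy
    have := t2.2.1
    exact rr S (z := y + e) t1.1 (mc t2.1 (by ring)) (by omega)
  have hc1 := Finset.card_le_card hsub
  rw [Finset.card_union_of_disjoint hdis, Finset.card_image_of_injective _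
    (add_left_injective e)] at hc1
  have hc2 : ((Finset.Icc (3 : ℤ) (N + 1 - 3)).image (fun k => e * k)).card ≤
      (Finset.Icc (3 : ℤ) (N + 1 - 3)).card := Finset.card_image_le
  rw [Int.card_Icc] at hc2
  have hc3 : h + 2 ≤ N + 1 := by omega
  have : 2 * (N + 1) ≤ e * (N + 1) := by
    apply mul_le_mul_of_nonneg_right <;> omega
  omega

theorem caseC (S : St h A e b) (hb3 : b = 3 * e) (he : e = 1) (h5 : 5 * e ∈ A) : False := by
  have h16 := S.h16
  obtain ⟨hbR, hbB⟩ := bRB S
  subst he
  have hb : b = 3 := by omega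
  subst hb
  have hch : ∀ n : ℕ, (2 * n + 5 : ℤ) < 2 * h →
      (2 * n + 3 : ℤ) ∈ A ∧ 2 * h - (2 * n + 4 : ℤ) ∈ A := by
    intro n
    induction n using Nat.strong_induction_on with
    | _ n ih =>
      intro hn
      match n, ih, hn with
      | 0, _, _ => exact ⟨mc hbR (by norm_num), mc hbB (by norm_num)⟩
      | 1, _, hn =>
        have h5' : (5 : ℤ) ∈ A := mc h5 (by norm_num)
        have := redB S h5' (by norm_num) (by omega)
        exact ⟨mc h5' (by norm_num), mc this (by norm_num)⟩
      | (n + 2), ih, hn =>
        have i1 := (ih (n + 1) (by omega) (by push_cast at hn ⊢; omega)).1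
        have hno : (2 * (n : ℤ) + 2) ∉ A := by
          intro hcon
          match n, ih, hcon with
          | 0, _, hcon => exact S.n2e (Or.inl (mc hcon (by norm_num)))
          | (n + 1), ih, hcon =>
            have i2 := (ih n (by omega) (by push_cast at hn ⊢; omega)).2
            exact S.sh.dis _ hcon (mc i2 (by push_cast; ring))
        have hB : 2 * h - (2 * ((n + 2 : ℕ) : ℤ) + 4) ∈ A := by
          rcases pair S.sh (Or.inl hbR) (Or.inl i1) (by push_cast; omega)
            (by push_cast at hn ⊢; omega) with k | k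
          · exact (hno (mc k (by push_cast; ring))).elim
          · exact mc k (by push_cast; ring)
        refine ⟨?_, hB⟩
        have := blueR S hB (by push_cast; omega) (by push_cast at hn ⊢; omega)
        exact mc this (by push_cast; ring)
  have hnh : h ∉ A := by
    intro hh
    exact S.sh.dis h hh (mc hh (by ring))
  rcases Int.even_or_odd h with ⟨k, hk⟩ | ⟨k, hk⟩
  · have := (hch (k - 2).toNat (by omega)).2
    exact hnh (mc this (by omega))
  · have := (hch (k - 1).toNat (by omega)).1
    exact hnh (mc this (by omega))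

theorem t4II : Pool.Agent.W68.Qn.T4II := by
  intro h A e h16 sh hmin hn2
  classical
  obtain ⟨he0, hXe, hemin⟩ := hmin
  have hnh : h ∉ A := by
    intro hh
    exact sh.dis h hh (mc hh (by ring))
  -- an element between e and h
  have hex : ∃ y : ℤ, e < y ∧ y < h ∧ XX h A y := by
    have hinj : Set.InjOn (fun a : ℤ => min a (2 * h - a)) (A : Set ℤ) := by
      intro x hx y hy hxy
      simp only at hxy
      have hx' := sh.dis x hx
      have hy' := sh.dis y hy
      by_contra hne
      have h1 : y ≠ 2 * h - x := by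
        rintro rfl
        exact hx' hy
      rcases le_total x (2 * h - x) with k1 | k1 <;>
        rcases le_total y (2 * h - y) with k2 | k2
      · rw [min_eq_left k1, min_eq_left k2] at hxy; omega
      · rw [min_eq_left k1, min_eq_right k2] at hxy; omega
      · rw [min_eq_right k1, min_eq_left k2] at hxy; omega
      · rw [min_eq_right k1, min_eq_right k2] at hxy; omega
    have hcard := Finset.card_image_of_injOn hinj
    have hbig := sh.big
    by_contra hcon
    push Not at hcon
    have hsub : A.image (fun a : ℤ => min a (2 * h - a)) ⊆ ({0, e} : Finset ℤ) := by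
      intro y hy
      rw [Finset.mem_image] at hy
      obtain ⟨a, ha, hay⟩ := hy
      have hr := sh.rng a ha
      have hah : a ≠ h := by
        rintro rfl
        exact hnh ha
      have hXy : XX h A y := by
        rw [← hay]
        rcases le_total a (2 * h - a) with k | k
        · rw [min_eq_left k]; exact Or.inl ha
        · rw [min_eq_right k]; exact Or.inr (mc ha (by ring))
      have hy1 : 0 ≤ y ∧ y < h := by
        rw [← hay]
        rcases le_total a (2 * h - a) with k | k
        · rw [min_eq_left k]; omega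
        · rw [min_eq_right k]; omega
      rw [Finset.mem_insert, Finset.mem_singleton]
      by_contra hne
      push Not at hne
      rcases lt_trichotomy y e with k | k | k
      · exact hemin y (by omega) k hXy
      · exact hne.2 k
      · exact hcon y k hy1.2 hXy
    have h1 := Finset.card_le_card hsub
    have h2 : ({0, e} : Finset ℤ).card ≤ 2 := Finset.card_le_two
    omega
  -- the least one
  obtain ⟨b, hb1, hb2, hb3, hbmin⟩ : ∃ b : ℤ, e < b ∧ b < h ∧ XX h A b ∧
      ∀ z : ℤ, e < z → z < b → ¬ XX h A z := by
    obtain ⟨y, hy1, hy2, hy3⟩ := hex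
    have hne : ((Finset.Icc (e + 1) (h - 1)).filter (fun z => XX h A z)).Nonempty :=
      ⟨y, by rw [Finset.mem_filter, Finset.mem_Icc]; exact ⟨⟨by omega, by omega⟩, hy3⟩⟩
    obtain ⟨b, hb, hm⟩ := Finset.exists_min_image _ (fun z : ℤ => z) hne
    rw [Finset.mem_filter, Finset.mem_Icc] at hb
    refine ⟨b, by omega, by omega, hb.2, fun z hz1 hz2 hz3 => ?_⟩
    have := hm z (by rw [Finset.mem_filter, Finset.mem_Icc]; exact ⟨⟨by omega, by omega⟩, hz3⟩)
    omega
  have S : St h A e b := ⟨sh, h16, he0, hXe, hemin, hn2, hb1, hb3, hbmin, hb2⟩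
  by_cases hI : 2 * b + 3 * e < 2 * h
  · by_cases h3e : b ≠ 3 * e ∨ 5 * e ∉ A
    · exact caseA S hI h3e
    · push Not at h3e
      exfalso
      by_cases he2 : 2 ≤ e
      · exact caseB S hI h3e.1 he2
      · exact caseC S h3e.1 (by omega) h3e.2
  · exact (caseI S (by omega)).elim

end Pool.Agent.W113.Qn.T4
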