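import Mathlib

/-!
# Tight covers by diagonals (task QN-P1)
-/

set_option autoImplicit false

namespace Pool.Agent.W113.Qn

open Finset

/-- indicator -/
def ind (Q : Finset ℤ) (z : ℤ) : ℕ := if z ∈ Q then 1 else 0

theorem ind_le (Q : Finset ℤ) (z : ℤ) : ind Q z ≤ 1 := by
  unfold ind; split_ifs <;> omega

theorem ind_one {Q : Finset ℤ} {z : ℤ} : ind Q z = 1 ↔ z ∈ Q := by
  unfold ind; split_ifs with h <;> simp [h]

theorem ind_zero {Q : Finset ℤ} {z : ℤ} : ind Q z = 0 ↔ z ∉ Q := by
  unfold ind; split_ifs with h <;> simp [h]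

theorem cnt (Q : Finset ℤ) (M : ℤ) (hM : 0 ≤ M) :
    ∑ z ∈ Icc 0 M, ind Q z + ∑ z ∈ Icc 0 M, ind Q (-z) =
      (Q.filter (fun z => -M ≤ z ∧ z ≤ M)).card + ind Q 0 := by
  classical
  have h1 : ∑ z ∈ Icc 0 M, ind Q z = ((Icc 0 M).filter (fun z => z ∈ Q)).card := by
    rw [Finset.card_filter]; rfl
  have h2 : ∑ z ∈ Icc 0 M, ind Q (-z) = ((Icc (-M) 0).filter (fun z => z ∈ Q)).card := by
    rw [Finset.card_filter]
    refine Finset.sum_nbij' (fun z => -z) (fun z => -z) ?_ ?_ ?_ ?_ ?_
    · intro z hz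
      simp only [Finset.mem_Icc] at hz ⊢
      omega
    · intro z hz
      simp only [Finset.mem_Icc] at hz ⊢
      omega
    · intro z _; simp
    · intro z _; simp
    · intro z _; rfl
  rw [h1, h2, ← Finset.card_union_add_card_inter]
  congr 1
  · congr 1
    ext z
    simp only [Finset.mem_union, Finset.mem_filter, Finset.mem_Icc]
    constructor
    · rintro (⟨h, hq⟩ | ⟨h, hq⟩)
      · exact ⟨hq, by omega, by omega⟩
      · exact ⟨hq, by omega, by omega⟩
    · rintro ⟨hq, h1, h2⟩
      rcases le_total 0 z with h | h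
      · exact Or.inl ⟨⟨h, h2⟩, hq⟩
      · exact Or.inr ⟨⟨h1, h⟩, hq⟩
  · by_cases h0 : (0 : ℤ) ∈ Q
    · have : (Icc 0 M).filter (fun z => z ∈ Q) ∩ (Icc (-M) 0).filter (fun z => z ∈ Q) = {0} := by
        ext z
        simp only [Finset.mem_inter, Finset.mem_filter, Finset.mem_Icc, Finset.mem_singleton]
        constructor
        · rintro ⟨⟨h, _⟩, ⟨h', _⟩⟩
          omega
        · rintro rfl
          exact ⟨⟨⟨le_refl _, hM⟩, h0⟩, ⟨⟨by omega, le_refl _⟩, h0⟩⟩
      rw [this, Finset.card_singleton, ind_one.2 h0]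
    · have : (Icc 0 M).filter (fun z => z ∈ Q) ∩ (Icc (-M) 0).filter (fun z => z ∈ Q) = ∅ := by
        ext z
        simp only [Finset.mem_inter, Finset.mem_filter, Finset.mem_Icc, Finset.notMem_empty,
          iff_false]
        rintro ⟨⟨h, hq⟩, ⟨h', _⟩⟩
        have : z = 0 := by omega
        rw [this] at hq
        exact h0 hq
      rw [this, Finset.card_empty, ind_zero.2 h0]

theorem refl_sum (M : ℤ) (f : ℤ → ℕ) :
    ∑ z ∈ Icc 0 M, f (M - z) = ∑ z ∈ Icc 0 M, f z := by
  refine Finset.sum_nbij' (fun z => M - z) (fun z => M - z) ?_ ?_ ?_ ?_ ?_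
  · intro z hz
    simp only [Finset.mem_Icc] at hz ⊢
    omega
  · intro z hz
    simp only [Finset.mem_Icc] at hz ⊢
    omega
  · intro z _; simp
  · intro z _; simp
  · intro z _; rfl

theorem tight (N : ℕ) (P S : Finset ℤ) (hP : P.card ≤ 2 * N + 1) (hS : S.card ≤ 2 * N + 1)
    (hc : ∀ a b : ℤ, 0 ≤ a → a ≤ 2 * N + 1 → 0 ≤ b → b ≤ 2 * N + 1 →
      (b - a ∈ P ∨ a + b - (2 * N + 1) ∈ S)) :
    ∃ u v : ℕ, u + v = N ∧ P.card = 2 * N + 1 ∧ S.card = 2 * N + 1 ∧
      (∀ t : ℤ, t ∈ P ↔ ((Even t ∧ |t| ≤ 2 * u) ∨ (Odd t ∧ |t| ≤ 2 * v - 1))) ∧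
      (∀ t : ℤ, t ∈ S ↔ ((Even t ∧ |t| ≤ 2 * u) ∨ (Odd t ∧ |t| ≤ 2 * v - 1))) := by
  classical
  obtain ⟨M, hMdef⟩ : ∃ M : ℤ, M = 2 * N + 1 := ⟨_, rfl⟩
  have hM0 : 0 ≤ M := by omega
  rw [← hMdef] at hc
  have hcard : (Icc (0 : ℤ) M).card = 2 * N + 2 := by
    rw [Int.card_Icc]; omega
  have cP := cnt P M hM0
  have cS := cnt S M hM0
  have fP : (P.filter (fun z => -M ≤ z ∧ z ≤ M)).card ≤ P.card := Finset.card_filter_le _ _
  have fS : (S.filter (fun z => -M ≤ z ∧ z ≤ M)).card ≤ S.card := Finset.card_filter_le _ _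
  have iP := ind_le P 0
  have iS := ind_le S 0
  -- the four borders
  have e1 : ∀ z ∈ Icc (0 : ℤ) M, 1 ≤ ind P z + ind S (-(M - z)) := by
    intro z hz
    rw [Finset.mem_Icc] at hz
    rcases hc 0 z le_rfl hM0 hz.1 hz.2 with h | h
    · rw [sub_zero] at h
      rw [ind_one.2 h]; omega
    · rw [show (0 : ℤ) + z - M = -(M - z) by ring] at h
      rw [ind_one.2 h]; omega
  have e2 : ∀ z ∈ Icc (0 : ℤ) M, 1 ≤ ind P (-(M - z)) + ind S z := by
    intro z hz
    rw [Finset.mem_Icc] at hz
    rcases hc M z hM0 le_rfl hz.1 hz.2 with h | h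
    · rw [show z - M = -(M - z) by ring] at h
      rw [ind_one.2 h]; omega
    · rw [show M + z - M = z by ring] at h
      rw [ind_one.2 h]; omega
  have e3 : ∀ z ∈ Icc (0 : ℤ) M, 1 ≤ ind P (-z) + ind S (-(M - z)) := by
    intro z hz
    rw [Finset.mem_Icc] at hz
    rcases hc z 0 hz.1 hz.2 le_rfl hM0 with h | h
    · rw [show 0 - z = -z by ring] at h
      rw [ind_one.2 h]; omega
    · rw [show z + 0 - M = -(M - z) by ring] at h
      rw [ind_one.2 h]; omega
  have e4 : ∀ z ∈ Icc (0 : ℤ) M, 1 ≤ ind P (M - z) + ind S z := by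
    intro z hz
    rw [Finset.mem_Icc] at hz
    rcases hc z M hz.1 hz.2 hM0 le_rfl with h | h
    · rw [ind_one.2 h]; omega
    · rw [show z + M - M = z by ring] at h
      rw [ind_one.2 h]; omega
  have r1 := refl_sum M (fun z => ind S (-z))
  have r2 := refl_sum M (fun z => ind P (-z))
  have r4 := refl_sum M (fun z => ind P z)
  have hle : ∀ z ∈ Icc (0 : ℤ) M, 4 ≤ (ind P z + ind S (-(M - z))) +
      (ind P (-(M - z)) + ind S z) + (ind P (-z) + ind S (-(M - z))) +
      (ind P (M - z) + ind S z) := by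
    intro z hz
    have := e1 z hz
    have := e2 z hz
    have := e3 z hz
    have := e4 z hz
    omega
  have hsum : ∑ z ∈ Icc (0 : ℤ) M, ((ind P z + ind S (-(M - z))) +
      (ind P (-(M - z)) + ind S z) + (ind P (-z) + ind S (-(M - z))) +
      (ind P (M - z) + ind S z)) =
      2 * (∑ z ∈ Icc 0 M, ind P z + ∑ z ∈ Icc 0 M, ind P (-z)) +
      2 * (∑ z ∈ Icc 0 M, ind S z + ∑ z ∈ Icc 0 M, ind S (-z)) := by
    simp only [Finset.sum_add_distrib]
    rw [r1, r2, r4]
    ring
  have hsum4 : ∑ z ∈ Icc (0 : ℤ) M, 4 = 4 * (2 * N + 2) := by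
    rw [Finset.sum_const, hcard]; simp; ring
  have hge := Finset.sum_le_sum hle
  rw [hsum4, hsum] at hge
  have heqs : ∑ z ∈ Icc (0 : ℤ) M, 4 = ∑ z ∈ Icc (0 : ℤ) M, ((ind P z + ind S (-(M - z))) +
      (ind P (-(M - z)) + ind S z) + (ind P (-z) + ind S (-(M - z))) +
      (ind P (M - z) + ind S z)) := by
    rw [hsum4, hsum]
    omega
  have hterm := (Finset.sum_eq_sum_iff_of_le hle).1 heqs
  have hPc : P.card = 2 * N + 1 := by omega
  have hSc : S.card = 2 * N + 1 := by omega
  have hP0 : ind P 0 = 1 := by omega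
  have hS0 : ind S 0 = 1 := by omega
  have hPf : (P.filter (fun z => -M ≤ z ∧ z ≤ M)).card = P.card := by omega
  have hSf : (S.filter (fun z => -M ≤ z ∧ z ≤ M)).card = S.card := by omega
  have hPr : ∀ t ∈ P, -M ≤ t ∧ t ≤ M := by
    have := Finset.eq_of_subset_of_card_le (Finset.filter_subset _ P) hPf.ge
    intro t ht
    rw [← this] at ht
    exact (Finset.mem_filter.1 ht).2
  have hSr : ∀ t ∈ S, -M ≤ t ∧ t ≤ M := by
    have := Finset.eq_of_subset_of_card_le (Finset.filter_subset _ S) hSf.ge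
    intro t ht
    rw [← this] at ht
    exact (Finset.mem_filter.1 ht).2
  have q1 : ∀ z : ℤ, 0 ≤ z → z ≤ M → ind P z + ind S (-(M - z)) = 1 := by
    intro z h1 h2
    have hz : z ∈ Icc (0 : ℤ) M := Finset.mem_Icc.2 ⟨h1, h2⟩
    have := hterm z hz
    have := e1 z hz
    have := e2 z hz
    have := e3 z hz
    have := e4 z hz
    omega
  have q3 : ∀ z : ℤ, 0 ≤ z → z ≤ M → ind P (-z) + ind S (-(M - z)) = 1 := by
    intro z h1 h2
    have hz : z ∈ Icc (0 : ℤ) M := Finset.mem_Icc.2 ⟨h1, h2⟩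
    have := hterm z hz
    have := e1 z hz
    have := e2 z hz
    have := e3 z hz
    have := e4 z hz
    omega
  have q4 : ∀ z : ℤ, 0 ≤ z → z ≤ M → ind P (M - z) + ind S z = 1 := by
    intro z h1 h2
    have hz : z ∈ Icc (0 : ℤ) M := Finset.mem_Icc.2 ⟨h1, h2⟩
    have := hterm z hz
    have := e1 z hz
    have := e2 z hz
    have := e3 z hz
    have := e4 z hz
    omega
  -- symmetry
  have symP : ∀ z : ℤ, 0 ≤ z → z ≤ M → (z ∈ P ↔ -z ∈ P) := by
    intro z h1 h2
    have a := q1 z h1 h2
    have b := q3 z h1 h2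
    rw [← ind_one, ← ind_one (z := -z)]
    constructor <;> intro h <;> omega
  have relS : ∀ w : ℤ, 0 ≤ w → w ≤ M → (w ∈ S ↔ M - w ∉ P) := by
    intro w h1 h2
    have a := q4 w h1 h2
    rw [← ind_one, ← ind_zero]
    constructor <;> intro h <;> omega
  have symS : ∀ w : ℤ, 0 ≤ w → w ≤ M → (w ∈ S ↔ -w ∈ S) := by
    intro w h1 h2
    have a := q4 w h1 h2
    have b := q1 (M - w) (by omega) (by omega)
    rw [show -(M - (M - w)) = -w by ring] at b
    rw [← ind_one, ← ind_one (z := -w)]
    constructor <;> intro h <;> omega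
  have hMP : M ∉ P := by
    have := q4 0 le_rfl hM0
    rw [sub_zero, hS0] at this
    exact ind_zero.1 (by omega)
  have h0P : (0 : ℤ) ∈ P := ind_one.1 hP0
  -- downward closed
  have down : ∀ x : ℤ, 2 ≤ x → x ≤ M → x ∈ P → x - 2 ∈ P := by
    intro x h1 h2 hx
    rcases hc 1 (x - 1) (by omega) (by omega) (by omega) (by omega) with h | h
    · rw [show x - 1 - 1 = x - 2 by ring] at h
      exact h
    · exfalso
      have a := q1 x (by omega) h2
      rw [show (1 : ℤ) + (x - 1) - M = -(M - x) by ring] at h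
      rw [ind_one.2 h, ind_one.2 hx] at a
      omega
  obtain ⟨u, hu⟩ : ∃ u : ℕ, u = Nat.findGreatest (fun k => (2 * k : ℤ) ∈ P) N := ⟨_, rfl⟩
  obtain ⟨v, hv⟩ : ∃ v : ℕ, v = Nat.findGreatest (fun k => (2 * k - 1 : ℤ) ∈ P) N := ⟨_, rfl⟩
  have huN : u ≤ N := hu ▸ Nat.findGreatest_le _
  have hvN : v ≤ N := hv ▸ Nat.findGreatest_le _
  have hEv : ∀ k : ℕ, k ≤ N → ((2 * k : ℤ) ∈ P ↔ k ≤ u) := by
    intro k hk
    constructor
    · intro h
      rw [hu]
      exact Nat.le_findGreatest hk h
    · have hU : (2 * u : ℤ) ∈ P := by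
        have := Nat.findGreatest_spec (P := fun k : ℕ => (2 * k : ℤ) ∈ P) (Nat.zero_le N)
          (by simpa using h0P)
        rw [← hu] at this
        exact this
      have : ∀ d : ℕ, d ≤ u → (2 * (u - d : ℕ) : ℤ) ∈ P := by
        intro d
        induction d with
        | zero => intro _; simpa using hU
        | succ d ih =>
          intro hd
          have h1 := ih (by omega)
          have h2 := down (2 * (u - d : ℕ) : ℤ) (by omega) (by omega) h1
          have : (2 * (u - d : ℕ) : ℤ) - 2 = 2 * (u - (d + 1) : ℕ) := by omega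
          rw [this] at h2
          exact h2
      intro hku
      have h3 := this (u - k) (by omega)
      rw [show u - (u - k) = k by omega] at h3
      exact h3
  have hOd : ∀ k : ℕ, 1 ≤ k → k ≤ N → ((2 * k - 1 : ℤ) ∈ P ↔ k ≤ v) := by
    intro k hk1 hk
    constructor
    · intro h
      rw [hv]
      exact Nat.le_findGreatest hk h
    · intro hkv
      have hV : (2 * v - 1 : ℤ) ∈ P := by
        have := Nat.findGreatest_of_ne_zero (P := fun k : ℕ => (2 * k - 1 : ℤ) ∈ P) (m := v)
          (n := N) hv.symm (by omega)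
        exact this
      have : ∀ d : ℕ, d + 1 ≤ v → (2 * (v - d : ℕ) - 1 : ℤ) ∈ P := by
        intro d
        induction d with
        | zero => intro _; simpa using hV
        | succ d ih =>
          intro hd
          have h1 := ih (by omega)
          have h2 := down (2 * (v - d : ℕ) - 1 : ℤ) (by omega) (by omega) h1
          have : (2 * (v - d : ℕ) - 1 : ℤ) - 2 = 2 * (v - (d + 1) : ℕ) - 1 := by omega
          rw [this] at h2
          exact h2
      have h3 := this (v - k) (by omega)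
      rw [show v - (v - k) = k by omega] at h3
      exact h3
  -- description of P
  have desP : ∀ t : ℤ, t ∈ P ↔ ((Even t ∧ |t| ≤ 2 * u) ∨ (Odd t ∧ |t| ≤ 2 * v - 1)) := by
    have pos : ∀ t : ℤ, 0 ≤ t → t ≤ M →
        (t ∈ P ↔ ((Even t ∧ |t| ≤ 2 * u) ∨ (Odd t ∧ |t| ≤ 2 * v - 1))) := by
      intro t ht0 htM
      rw [abs_of_nonneg ht0]
      rcases Int.even_or_odd t with he | ho
      · obtain ⟨k, hk⟩ := he
        obtain ⟨k, rfl⟩ := Int.eq_ofNat_of_zero_le (show 0 ≤ k by omega)
        have h1 := hEv k (by omega)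
        have h2 : t = 2 * k := by omega
        subst h2
        rw [h1]
        constructor
        · intro h
          exact Or.inl ⟨⟨k, by ring⟩, by omega⟩
        · rintro (⟨_, h⟩ | ⟨⟨j, hj⟩, h⟩)
          · omega
          · omega
      · obtain ⟨k, hk⟩ := ho
        obtain ⟨k, rfl⟩ := Int.eq_ofNat_of_zero_le (show 0 ≤ k by omega)
        by_cases hkN : k + 1 ≤ N
        · have h1 := hOd (k + 1) (by omega) hkN
          have h2 : t = 2 * ((k + 1 : ℕ) : ℤ) - 1 := by push_cast; omega
          rw [← h2] at h1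
          rw [h1]
          constructor
          · intro h
            exact Or.inr ⟨⟨k, hk⟩, by push_cast at *; omega⟩
          · rintro (⟨⟨j, hj⟩, h⟩ | ⟨_, h⟩)
            · omega
            · push_cast at h2; omega
        · have h2 : t = M := by omega
          rw [h2]
          constructor
          · intro h
            exact absurd h hMP
          · rintro (⟨⟨j, hj⟩, h⟩ | ⟨_, h⟩)
            · omega
            · omega
    intro t
    by_cases hr : -M ≤ t ∧ t ≤ M
    · rcases le_total 0 t with h | h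
      · exact pos t h hr.2
      · have h1 := pos (-t) (by omega) (by omega)
        have h2 := symP (-t) (by omega) (by omega)
        rw [neg_neg] at h2
        rw [← h2, h1, abs_neg, even_neg, odd_neg]
    · constructor
      · intro h
        exact absurd (hPr t h) hr
      · have : M < |t| := by
          by_contra hcon
          exact hr (abs_le.1 (not_lt.1 hcon))
        rintro (⟨_, h⟩ | ⟨_, h⟩)
        · omega
        · omega
  -- counting
  have hPset : P = (Icc (-(u : ℤ)) u).image (fun k => 2 * k) ∪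
      (Icc (1 - (v : ℤ)) v).image (fun k => 2 * k - 1) := by
    ext t
    rw [desP t]
    simp only [Finset.mem_union, Finset.mem_image, Finset.mem_Icc]
    constructor
    · rintro (⟨⟨k, hk⟩, h⟩ | ⟨⟨k, hk⟩, h⟩)
      · rw [abs_le] at h
        exact Or.inl ⟨k, by omega, by omega⟩
      · rw [abs_le] at h
        exact Or.inr ⟨k + 1, by omega, by omega⟩
    · rintro (⟨k, hk, rfl⟩ | ⟨k, hk, rfl⟩)
      · refine Or.inl ⟨⟨k, by ring⟩, ?_⟩
        rw [abs_le]; omega
      · refine Or.inr ⟨⟨k - 1, by ring⟩, ?_⟩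
        rw [abs_le]; omega
  have huv : u + v = N := by
    have hdis : Disjoint ((Icc (-(u : ℤ)) u).image (fun k => 2 * k))
        ((Icc (1 - (v : ℤ)) v).image (fun k => 2 * k - 1)) := by
      rw [Finset.disjoint_left]
      intro t h1 h2
      simp only [Finset.mem_image, Finset.mem_Icc] at h1 h2
      obtain ⟨a, _, ha⟩ := h1
      obtain ⟨b, _, hb⟩ := h2
      omega
    have hi1 : Function.Injective (fun k : ℤ => 2 * k) := by
      intro a b h
      have h' : 2 * a = 2 * b := h
      omega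
    have hi2 : Function.Injective (fun k : ℤ => 2 * k - 1) := by
      intro a b h
      have h' : 2 * a - 1 = 2 * b - 1 := h
      omega
    have h3 : P.card = (2 * u + 1) + 2 * v := by
      rw [hPset, Finset.card_union_of_disjoint hdis,
        Finset.card_image_of_injective _ hi1, Finset.card_image_of_injective _ hi2,
        Int.card_Icc, Int.card_Icc]
      omega
    omega
  have desS : ∀ t : ℤ, t ∈ S ↔ ((Even t ∧ |t| ≤ 2 * u) ∨ (Odd t ∧ |t| ≤ 2 * v - 1)) := by
    have pos : ∀ t : ℤ, 0 ≤ t → t ≤ M →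
        (t ∈ S ↔ ((Even t ∧ |t| ≤ 2 * u) ∨ (Odd t ∧ |t| ≤ 2 * v - 1))) := by
      intro t ht0 htM
      rw [relS t ht0 htM, desP (M - t), abs_of_nonneg ht0, abs_of_nonneg (by omega : 0 ≤ M - t)]
      rcases Int.even_or_odd t with he | ho
      · have ho' : Odd (M - t) := by
          obtain ⟨k, hk⟩ := he
          exact ⟨N - k, by omega⟩
        have hne' : ¬ Even (M - t) := by rwa [Int.not_even_iff_odd]
        have hne : ¬ Odd t := by rwa [Int.not_odd_iff_even]
        simp only [he, ho', hne', hne, true_and, false_and, or_false, false_or, not_le]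
        obtain ⟨k, hk⟩ := he
        omega
      · have he' : Even (M - t) := by
          obtain ⟨k, hk⟩ := ho
          exact ⟨N - k, by omega⟩
        have hne' : ¬ Odd (M - t) := by rwa [Int.not_odd_iff_even]
        have hne : ¬ Even t := by rwa [Int.not_even_iff_odd]
        simp only [ho, he', hne', hne, true_and, false_and, or_false, false_or, not_le]
        obtain ⟨k, hk⟩ := ho
        omega
    intro t
    by_cases hr : -M ≤ t ∧ t ≤ M
    · rcases le_total 0 t with h | h
      · exact pos t h hr.2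
      · have h1 := pos (-t) (by omega) (by omega)
        have h2 := symS (-t) (by omega) (by omega)
        rw [neg_neg] at h2
        rw [← h2, h1, abs_neg, even_neg, odd_neg]
    · constructor
      · intro h
        exact absurd (hSr t h) hr
      · have : M < |t| := by
          by_contra hcon
          exact hr (abs_le.1 (not_lt.1 hcon))
        rintro (⟨_, h⟩ | ⟨_, h⟩)
        · omega
        · omega
  exact ⟨u, v, huv, hPc, hSc, desP, desS⟩

end Pool.Agent.W113.Qn
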